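import Mathlib
import Pool.Agent.H12.Witt

namespace Pool.Agent.Results.MP_8879ae_al.Q1

open scoped TensorProduct Polynomial

/-- the operators `t_i` (multiplication) and `∂_i` on `ℂ[t_1, ..., t_k]` -/
def gens (k : ℕ) : Set (Module.End ℂ (MvPolynomial (Fin k) ℂ)) :=
  {U | ∃ i : Fin k, U = LinearMap.mulLeft ℂ (MvPolynomial.X i) ∨
    U = (MvPolynomial.pderiv i : Derivation ℂ (MvPolynomial (Fin k) ℂ) _).toLinearMap}

/-- the Weyl algebra `A_k`, as the algebra of operators generated by the `t_i` and `∂_i` -/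
abbrev A (k : ℕ) : Type := Algebra.adjoin ℂ (gens k)

/-- the element `t_j` of `A_k` -/
noncomputable def tt {k : ℕ} (j : Fin k) : A k :=
  ⟨LinearMap.mulLeft ℂ (MvPolynomial.X j), Algebra.subset_adjoin ⟨j, Or.inl rfl⟩⟩

/-- the element `∂_j` of `A_k` -/
noncomputable def dd {k : ℕ} (j : Fin k) : A k :=
  ⟨(MvPolynomial.pderiv j : Derivation ℂ (MvPolynomial (Fin k) ℂ) _).toLinearMap,
    Algebra.subset_adjoin ⟨j, Or.inr rfl⟩⟩

/-- the Lie algebra `W_{-1} = ℂ[t] ∂` of derivations of `ℂ[t]`; `x = f ∂` with `f = x t` -/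
abbrev W : Type := Derivation ℂ ℂ[X] ℂ[X]

/-- the value of `Ψ_n` on `f ∂`, where `v j i` stands for the element `v_i` of the `j`-th summand -/
noncomputable def Psi {l : ℕ} (n : Fin l → ℕ) {B : Type} [Ring B] [Algebra ℂ B]
    (v : Fin l → ℕ → B) (f : ℂ[X]) : A l ⊗[ℂ] B :=
  ∑ j : Fin l, ((Polynomial.aeval (tt j) f * dd j) ⊗ₜ[ℂ] (1 : B) +
    ∑ i ∈ Finset.range (n j), (((Nat.factorial (i + 1) : ℂ)⁻¹ •
      Polynomial.aeval (tt j) (Polynomial.derivative^[i + 1] f)) ⊗ₜ[ℂ] v j i))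

open Pool.Agent.H12.Witt

lemma tt_comm {k : ℕ} (i j : Fin k) : Commute (tt i) (tt j) := by
  apply Subtype.ext
  refine LinearMap.ext fun x => ?_
  simp [tt, mul_left_comm]

lemma aeval_comm {k : ℕ} (i j : Fin k) (f : ℂ[X]) : Commute (Polynomial.aeval (tt i) f) (tt j) := by
  induction f using Polynomial.induction_on' with
  | add p q hp hq => rw [map_add]; exact hp.add_left hq
  | monomial m a =>
    rw [Polynomial.aeval_monomial]
    exact (Algebra.commute_algebraMap_left _ _).mul_left ((tt_comm i j).pow_left m)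

lemma dd_tt {k : ℕ} (i j : Fin k) : dd i * tt j = tt j * dd i + if i = j then 1 else 0 := by
  apply Subtype.ext
  refine LinearMap.ext fun x => ?_
  by_cases h : i = j
  · subst h
    simp [dd, tt, add_comm]
  · simp [dd, tt, h, MvPolynomial.pderiv_X, Ne.symm h]

lemma psi_comm {l : ℕ} (n : Fin l → ℕ) {B : Type} [Ring B] [Algebra ℂ B]
    (v : Fin l → ℕ → B) (f : ℂ[X]) (j : Fin l) :
    Psi n v f * (tt j ⊗ₜ[ℂ] (1 : B)) = (tt j ⊗ₜ[ℂ] (1 : B)) * Psi n v f +
      Polynomial.aeval (tt j) f ⊗ₜ[ℂ] (1 : B) := by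
  apply psi_abs (j := j)
  · intro i
    rw [mul_assoc, dd_tt, mul_add, ← mul_assoc, (aeval_comm _ j _).eq, mul_assoc]
    split_ifs with h
    · rw [h, mul_one]
    · rw [mul_zero]
  · intro i r
    rw [smul_mul_assoc, mul_smul_comm, (aeval_comm _ j _).eq]

theorem result : ∃ φ : UniversalEnvelopingAlgebra ℂ W →+* A 2,
    ∀ (l : ℕ) (n : Fin l → ℕ) (B : Type) [Ring B] [Algebra ℂ B] (v : Fin l → ℕ → B),
      ¬ ∃ ψ : A l ⊗[ℂ] B →+* A 2,
        ∀ x : W, φ (UniversalEnvelopingAlgebra.ι ℂ x) = ψ (Psi n v (x Polynomial.X)) := by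
  have hL : Gen ℂ[X] {Polynomial.X} := by
    intro P h1 h2 h3 _ h5 x
    induction x using Polynomial.induction_on with
    | C a => exact h1 a
    | add p q hp hq => exact h2 _ _ hp hq
    | monomial m a h => rw [pow_succ, ← mul_assoc]; exact h3 _ _ h (h5 _ rfl)
  have hR : Gen (MvPolynomial (Fin 2) ℂ) {MvPolynomial.X 0, MvPolynomial.X 1} := by
    intro P h1 h2 h3 _ h5 x
    induction x using MvPolynomial.induction_on with
    | C a => exact h1 a
    | add p q hp hq => exact h2 _ _ hp hq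
    | mul_X p i h =>
      refine h3 _ _ h (h5 _ ?_)
      fin_cases i <;> simp
  have hmu : ∀ r : MvPolynomial (Fin 2) ℂ, mu r ∈ Algebra.adjoin ℂ (gens 2) := by
    intro r
    induction r using MvPolynomial.induction_on with
    | C a =>
      have : mu (MvPolynomial.C a : MvPolynomial (Fin 2) ℂ) = algebraMap ℂ _ a :=
        (Algebra.lmul ℂ (MvPolynomial (Fin 2) ℂ)).commutes a
      rw [this]; exact Subalgebra.algebraMap_mem _ _
    | add p q hp hq => rw [mu, map_add]; exact add_mem hp hq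
    | mul_X p i h => rw [mu, map_mul]; exact mul_mem h (tt i).2
  obtain ⟨φ, hφ⟩ := main (s1 := MvPolynomial.X 0) (s2 := MvPolynomial.X 1)
    (d1 := MvPolynomial.pderiv 0) (d2 := MvPolynomial.pderiv 1)
    (ev := Polynomial.aeval ⟨0, 1⟩) hL hR (by simp) (by simp) (by simp) (by simp) (by simp) (gens 2)
    (by
      rintro U ⟨i, rfl | rfl⟩
      · exact Or.inl ⟨_, rfl⟩
      · exact Or.inr ⟨_, rfl⟩) hmu ⟨0, Or.inr rfl⟩ ⟨1, Or.inr rfl⟩
    (MvPolynomial.aeval ![2, 1 - DualNumber.eps]).toRingHom (by simp) (by simp)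
  refine ⟨φ, fun l n B _ _ v ⟨ψ, hψ⟩ => ?_⟩
  let e : ℕ → W := fun i => (Polynomial.X ^ i : ℂ[X]) • Polynomial.derivative'
  have he : ∀ i, e i Polynomial.X = Polynomial.X ^ i := fun i => by simp [e]
  obtain ⟨h0, h1⟩ := hφ (e 0) (e 1) (e 2) (e 3) (by simp [he]) (by simp [he]) (he 2)
  rcases l with _ | l
  · apply h0
    rw [hψ]
    simp [Psi]
  have key : ∀ i, φ (UniversalEnvelopingAlgebra.ι ℂ (e i)) * ψ (tt 0 ⊗ₜ[ℂ] 1) -
      ψ (tt 0 ⊗ₜ[ℂ] 1) * φ (UniversalEnvelopingAlgebra.ι ℂ (e i)) = ψ (tt 0 ⊗ₜ[ℂ] 1) ^ i := by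
    intro i
    rw [hψ, ← map_mul, ← map_mul, psi_comm, map_add, add_sub_cancel_left, he, ← map_pow,
      Algebra.TensorProduct.tmul_pow]
    simp
  exact h1 _ ((key 0).trans (pow_zero _)) ((key 1).trans (pow_one _)) (key 2) (key 3)

end Pool.Agent.Results.MP_8879ae_al.Q1
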