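import Mathlib
import Pool.Agent.H12.Witt

namespace Pool.Agent.Results.MP_8879ae_al.Q2

open scoped TensorProduct

/-- the Laurent polynomial ring `ℂ[t_1^{±1}, ..., t_k^{±1}]` -/
abbrev Lau (k : ℕ) : Type := AddMonoidAlgebra ℂ (Fin k → ℤ)

/-- the operator `∂_i`, sending the monomial `t^v` to `v_i t^(v - e_i)` -/
noncomputable def pd {k : ℕ} (i : Fin k) : Module.End ℂ (Lau k) :=
  (AddMonoidAlgebra.basis (Fin k → ℤ) ℂ).constr ℂ
    fun v => AddMonoidAlgebra.single (v - Pi.single i 1) (v i : ℂ)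

/-- the operators `t_i`, `t_i⁻¹` (multiplication) and `∂_i` -/
def gens (k : ℕ) : Set (Module.End ℂ (Lau k)) :=
  {U | ∃ i : Fin k, U = LinearMap.mulLeft ℂ (AddMonoidAlgebra.single (Pi.single i 1) 1) ∨
    U = LinearMap.mulLeft ℂ (AddMonoidAlgebra.single (-Pi.single i 1) 1) ∨ U = pd i}

/-- the localised Weyl algebra `Ã_k`, generated by the operators `t_i`, `t_i⁻¹`, `∂_i` -/
abbrev A (k : ℕ) : Type := Algebra.adjoin ℂ (gens k)

lemma span_single (k : ℕ) :
    AddSubgroup.closure (Set.range fun i : Fin k => (Pi.single i 1 : Fin k → ℤ)) = ⊤ := by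
  rw [eq_top_iff]
  rintro v -
  rw [pi_eq_sum_univ' v]
  exact sum_mem fun i _ => zsmul_mem (AddSubgroup.subset_closure (Set.mem_range_self i)) _

lemma mul_mem_A {k : ℕ} (r : Lau k) : LinearMap.mulLeft ℂ r ∈ Algebra.adjoin ℂ (gens k) := by
  refine Pool.Agent.H12.Witt.gen_add _ (span_single k)
    (fun r => Algebra.lmul ℂ (Lau k) r ∈ Algebra.adjoin ℂ (gens k)) ?_ ?_ ?_ ?_ r
  · intro c; rw [AlgHom.commutes]; exact Subalgebra.algebraMap_mem _ _
  · intro x y hx hy; rw [map_add]; exact add_mem hx hy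
  · intro x y hx hy; rw [map_mul]; exact mul_mem hx hy
  · rintro g ⟨i, rfl⟩
    exact ⟨Algebra.subset_adjoin ⟨i, Or.inl rfl⟩, Algebra.subset_adjoin ⟨i, Or.inr (Or.inl rfl)⟩⟩

/-- a Laurent polynomial as an element of `Ã_k` -/
noncomputable def fn {k : ℕ} (r : Lau k) : A k := ⟨LinearMap.mulLeft ℂ r, mul_mem_A r⟩

/-- the element `∂_j` of `Ã_k` -/
noncomputable def dd {k : ℕ} (j : Fin k) : A k :=
  ⟨pd j, Algebra.subset_adjoin ⟨j, Or.inr (Or.inr rfl)⟩⟩

/-- the Witt algebra `W = ℂ[t, t⁻¹] ∂` of derivations of `ℂ[t, t⁻¹]`; `x = f ∂` with `f = x t` -/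
abbrev W : Type := Derivation ℂ (LaurentPolynomial ℂ) (LaurentPolynomial ℂ)

/-- the Laurent polynomial `f(t_j)` -/
noncomputable def sub {k : ℕ} (j : Fin k) (f : LaurentPolynomial ℂ) : Lau k :=
  AddMonoidAlgebra.mapDomain (fun m : ℤ => (Pi.single j m : Fin k → ℤ)) f

/-- the value of `Ψ_n` on `f ∂`, where `v j i` stands for the element `v_i` of the `j`-th summand -/
noncomputable def Psi {l : ℕ} (n : Fin l → ℕ) {B : Type} [Ring B] [Algebra ℂ B]
    (v : Fin l → ℕ → B) (f : LaurentPolynomial ℂ) : A l ⊗[ℂ] B :=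
  ∑ j : Fin l, ((fn (sub j f) * dd j) ⊗ₜ[ℂ] (1 : B) +
    ∑ i ∈ Finset.range (n j), (((Nat.factorial (i + 1) : ℂ)⁻¹ •
      fn ((pd j)^[i + 1] (sub j f))) ⊗ₜ[ℂ] v j i))

open Pool.Agent.H12.Witt AddMonoidAlgebra

lemma pd_single {k : ℕ} (i : Fin k) (v : Fin k → ℤ) (c : ℂ) :
    pd i (single v c) = single (v - Pi.single i 1) (c * v i) := by
  have : (single v c : Lau k) = c • AddMonoidAlgebra.basis (Fin k → ℤ) ℂ v := by simp
  rw [this, map_smul, pd, Module.Basis.constr_basis]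
  simp

lemma pd_mul {k : ℕ} (i : Fin k) (a b : Lau k) : pd i (a * b) = a • pd i b + b • pd i a := by
  induction a using AddMonoidAlgebra.induction_linear with
  | zero => simp
  | add x y hx hy => rw [add_mul, map_add, hx, hy, map_add, add_smul, smul_add]; abel
  | single v c =>
    induction b using AddMonoidAlgebra.induction_linear with
    | zero => simp
    | add x y hx hy => rw [mul_add, map_add, hx, hy, map_add, add_smul, smul_add]; abel
    | single w d =>
      simp only [single_mul_single, pd_single, smul_eq_mul]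
      have e1 : v + (w - Pi.single i 1) = v + w - Pi.single i 1 := by abel
      have e2 : w + (v - Pi.single i 1) = v + w - Pi.single i 1 := by abel
      rw [e1, e2, ← single_add]
      congr 1
      simp; ring

/-- `∂_i` as a derivation -/
noncomputable def pD {k : ℕ} (i : Fin k) : Derivation ℂ (Lau k) (Lau k) :=
  Derivation.mk' (pd i) (pd_mul i)

lemma pd_t {k : ℕ} (i j : Fin k) : pd i (single (Pi.single j 1) 1) = if i = j then 1 else 0 := by
  rw [pd_single]
  split_ifs with h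
  · subst h; simp [one_def]
  · simp [h]

lemma fn_comm {k : ℕ} (a b : Lau k) : fn a * fn b = fn b * fn a := by
  apply Subtype.ext
  refine LinearMap.ext fun x => ?_
  simp [fn, mul_left_comm]

lemma dd_tt {k : ℕ} (i j : Fin k) : dd i * fn (single (Pi.single j 1) 1) =
    fn (single (Pi.single j 1) 1) * dd i + if i = j then 1 else 0 := by
  apply Subtype.ext
  refine LinearMap.ext fun x => ?_
  have := pd_mul i (single (Pi.single j 1) 1) x
  rw [pd_t] at this
  split_ifs at this ⊢ with h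
  · simpa [dd, fn] using this
  · simpa [dd, fn] using this

lemma psi_comm {l : ℕ} (n : Fin l → ℕ) {B : Type} [Ring B] [Algebra ℂ B]
    (v : Fin l → ℕ → B) (f : LaurentPolynomial ℂ) (j : Fin l) :
    Psi n v f * (fn (single (Pi.single j 1) 1) ⊗ₜ[ℂ] (1 : B)) =
      (fn (single (Pi.single j 1) 1) ⊗ₜ[ℂ] (1 : B)) * Psi n v f + fn (sub j f) ⊗ₜ[ℂ] (1 : B) := by
  apply psi_abs (j := j)
  · intro i
    rw [mul_assoc, dd_tt, mul_add, ← mul_assoc, fn_comm, mul_assoc]
    split_ifs with h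
    · rw [h, mul_one]
    · rw [mul_zero]
  · intro i r
    rw [smul_mul_assoc, mul_smul_comm, fn_comm]

lemma fn_pow {k : ℕ} (a : Lau k) (i : ℕ) : fn a ^ i = fn (a ^ i) := by
  apply Subtype.ext
  exact (map_pow (Algebra.lmul ℂ (Lau k)) a i).symm

/-- the derivation `d/dt` of `ℂ[t, t⁻¹]` -/
noncomputable def d0 : LaurentPolynomial ℂ →ₗ[ℂ] LaurentPolynomial ℂ :=
  (AddMonoidAlgebra.basis ℤ ℂ).constr ℂ fun v => single (v - 1) (v : ℂ)

lemma d0_single (v : ℤ) (c : ℂ) : d0 (single v c) = single (v - 1) (c * v) := by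
  have : (single v c : LaurentPolynomial ℂ) = c • AddMonoidAlgebra.basis ℤ ℂ v := by
    rw [basis_apply, smul_single, smul_eq_mul, mul_one]
  rw [this, map_smul, d0, Module.Basis.constr_basis, smul_single, smul_eq_mul]

lemma d0_mul (a b : LaurentPolynomial ℂ) : d0 (a * b) = a • d0 b + b • d0 a := by
  induction a using AddMonoidAlgebra.induction_linear with
  | zero => simp
  | add x y hx hy => rw [add_mul, map_add, hx, hy, map_add, add_smul, smul_add]; abel
  | single v c =>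
    induction b using AddMonoidAlgebra.induction_linear with
    | zero => simp
    | add x y hx hy => rw [mul_add, map_add, hx, hy, map_add, add_smul, smul_add]; abel
    | single w d =>
      simp only [single_mul_single, d0_single, smul_eq_mul]
      have e1 : v + (w - 1) = v + w - 1 := by abel
      have e2 : w + (v - 1) = v + w - 1 := by abel
      rw [e1, e2, ← single_add]
      congr 1
      simp; ring

theorem result : ∃ φ : UniversalEnvelopingAlgebra ℂ W →+* A 2,
    ∀ (l : ℕ) (n : Fin l → ℕ) (B : Type) [Ring B] [Algebra ℂ B] (v : Fin l → ℕ → B),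
      ¬ ∃ ψ : A l ⊗[ℂ] B →+* A 2,
        ∀ x : W, φ (UniversalEnvelopingAlgebra.ι ℂ x) = ψ (Psi n v (x (LaurentPolynomial.T 1))) := by
  have hL : Gen (LaurentPolynomial ℂ) {LaurentPolynomial.T 1} := by
    intro P h1 h2 h3 h4 h5 x
    refine gen_add {1} (by simp) P h1 h2 h3 ?_ x
    rintro g rfl
    exact ⟨h5 _ rfl, h4 (single 1 1) _ (by rw [single_mul_single, add_neg_cancel, mul_one, one_def])
      (h5 _ rfl)⟩
  have hR : Gen (Lau 2) {single (Pi.single 0 1) 1, single (Pi.single 1 1) 1} := by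
    intro P h1 h2 h3 h4 h5 x
    refine gen_add _ (span_single 2) P h1 h2 h3 ?_ x
    rintro g ⟨i, rfl⟩
    have : P (single (Pi.single i 1) 1) := h5 _ (by fin_cases i <;> simp)
    exact ⟨this, h4 _ _ (by simp [single_mul_single, one_def]) this⟩
  let s1 : Lau 2 := single (Pi.single 0 1) 1
  let s2 : Lau 2 := single (Pi.single 1 1) 1
  let s3 : Lau 2 := single (-Pi.single 1 1) 1
  have h23 : s2 * s3 = 1 := by simp [s2, s3, single_mul_single, one_def]
  let u : (QuadraticAlgebra (Lau 2) (-s2) s1)ˣ :=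
    Units.mkOfMulEqOne ⟨0, 1⟩ ⟨s3 * s1, -s3⟩ (by
      ext1
      · simp [h23, QuadraticAlgebra.re_one]
      · simp [QuadraticAlgebra.im_one, mul_comm])
  let u1 : (DualNumber ℂ)ˣ := Units.mkOfMulEqOne 2 (algebraMap ℂ _ 2⁻¹) (by
    rw [← map_ofNat (algebraMap ℂ (DualNumber ℂ)) 2, ← map_mul]; simp)
  let u2 : (DualNumber ℂ)ˣ := Units.mkOfMulEqOne (1 - DualNumber.eps) (1 + DualNumber.eps) (by
    have := DualNumber.eps_mul_eps (R := ℂ)
    linear_combination -this)
  let χ : Multiplicative (Fin 2 → ℤ) →* DualNumber ℂ :=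
    { toFun := fun v => ((u1 ^ (v.toAdd 0) * u2 ^ (v.toAdd 1) : (DualNumber ℂ)ˣ) : DualNumber ℂ)
      map_one' := by simp
      map_mul' := fun a b => by
        simp only [toAdd_mul, Pi.add_apply, zpow_add, Units.val_mul]; ring }
  obtain ⟨φ, hφ⟩ := main (s1 := s1) (s2 := s2) (d1 := pD 0) (d2 := pD 1)
    (ev := AddMonoidAlgebra.lift ℂ _ ℤ ((Units.coeHom _).comp (zpowersHom _ u))) hL hR
    (by
      show AddMonoidAlgebra.lift ℂ _ ℤ _ (single 1 1) = _
      rw [lift_single]; simp [u])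
    (pd_t 0 0) (pd_t 0 1) (pd_t 1 0) (pd_t 1 1) (gens 2)
    (by
      rintro U ⟨i, rfl | rfl | rfl⟩
      · exact Or.inl ⟨_, rfl⟩
      · exact Or.inl ⟨_, rfl⟩
      · exact Or.inr ⟨pD i, rfl⟩) mul_mem_A ⟨0, Or.inr (Or.inr rfl)⟩ ⟨1, Or.inr (Or.inr rfl)⟩
    (AddMonoidAlgebra.lift ℂ _ _ χ).toRingHom (by simp [s1, χ, u1]) (by simp [s2, χ, u2])
  refine ⟨φ, fun l n B _ _ v ⟨ψ, hψ⟩ => ?_⟩
  let e : ℕ → W := fun i => (LaurentPolynomial.T 1 ^ i : LaurentPolynomial ℂ) •
    Derivation.mk' d0 d0_mul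
  have he : ∀ i, e i (LaurentPolynomial.T 1) = LaurentPolynomial.T 1 ^ i := fun i => by
    have : d0 (LaurentPolynomial.T 1) = 1 := by
      show d0 (single 1 1) = single 0 1
      rw [d0_single]; simp
    simp only [e, Derivation.smul_apply, Derivation.coe_mk', this, smul_eq_mul, mul_one]
  obtain ⟨h0, h1⟩ := hφ (e 0) (e 1) (e 2) (e 3) (by rw [he, pow_zero]) (by rw [he, pow_one]) (he 2)
  rcases l with _ | l
  · apply h0
    rw [hψ]
    simp [Psi]
  have key : ∀ i, φ (UniversalEnvelopingAlgebra.ι ℂ (e i)) *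
      ψ (fn (single (Pi.single 0 1) 1) ⊗ₜ[ℂ] 1) - ψ (fn (single (Pi.single 0 1) 1) ⊗ₜ[ℂ] 1) *
      φ (UniversalEnvelopingAlgebra.ι ℂ (e i)) = ψ (fn (single (Pi.single 0 1) 1) ⊗ₜ[ℂ] 1) ^ i := by
    intro i
    rw [hψ, ← map_mul, ← map_mul, psi_comm, map_add, add_sub_cancel_left, he, ← map_pow,
      Algebra.TensorProduct.tmul_pow, fn_pow, one_pow]
    congr 3
    show sub 0 ((single 1 1 : LaurentPolynomial ℂ) ^ i) = _
    rw [single_pow, single_pow, sub, mapDomain_single, ← Pi.single_smul]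
  exact h1 _ ((key 0).trans (pow_zero _)) ((key 1).trans (pow_one _)) (key 2) (key 3)

end Pool.Agent.Results.MP_8879ae_al.Q2
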